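import Pool.Agent.Helper30.EL.St

/-!
# Project EL, module LVE: level of distribution
-/

set_option autoImplicit false

noncomputable section

namespace Pool.Agent.Helper73.EL

open Finset Filter Topology ArithmeticFunction
open Pool.Agent.Helper30.EL
open Pool.Agent.Helper9.TW (gm Qs fm StC9)
open Pool.Agent.Helper18.TR (StBonf StFLmain StLevel fam0 fam1)
open Pool.Agent.Helper15.AB (Th StDB StMT)
open Pool.Agent.Helper60.GP (II IsB JJ Err StBVc StPNT StBump StM2)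
open Pool.Agent.Helper48.BK (StSW)
open Pool.Agent.Helper93.KS (bq Pq SW bmq idq ejq mg Gb Vq AD UQ LQ HU HL StBXQ StT1 StDK StCEL StBMQ StSQR StDUA)

/-! ### residue classes -/

private theorem vv_mod (n c p q : ℕ) : p ∣ vv n c (q % p) ↔ p ∣ vv n c q := by
  have h : (q % p) ≡ q [MOD p] := Nat.mod_modEq q p
  have h2 : 2 * n + c * ((q % p) ^ 2 + q % p + 1) ≡ 2 * n + c * (q ^ 2 + q + 1) [MOD p] :=
    (Nat.ModEq.refl _).add ((Nat.ModEq.refl _).mul (((h.pow 2).add h).add (Nat.ModEq.refl _)))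
  unfold vv
  exact h2.dvd_iff dvd_rfl

private theorem crt (M p : ℕ) (hM : 0 < M) (hp : 0 < p) (hc : Nat.Coprime M p) (A : ℕ → Prop)
    [DecidablePred A] (S : Finset ℕ) (hS : ∀ s ∈ S, s < p) :
    ((range (M * p)).filter (fun r => A (r % M) ∧ r % p ∈ S)).card =
      ((range M).filter A).card * S.card := by
  rw [← Finset.card_product]
  refine Finset.card_bij (fun r _ => (r % M, r % p)) ?_ ?_ ?_
  · intro r hr
    rw [mem_filter] at hr
    rw [mem_product, mem_filter, mem_range]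
    exact ⟨⟨Nat.mod_lt _ hM, hr.2.1⟩, hr.2.2⟩
  · intro r hr s hs hrs
    have h1 := mem_range.1 (mem_filter.1 hr).1
    have h2 := mem_range.1 (mem_filter.1 hs).1
    have e1 : r ≡ s [MOD M] := congrArg Prod.fst hrs
    have e2 : r ≡ s [MOD p] := congrArg Prod.snd hrs
    exact ((Nat.modEq_and_modEq_iff_modEq_mul hc).1 ⟨e1, e2⟩).eq_of_lt_of_lt h1 h2
  · rintro ⟨a, s⟩ has
    rw [mem_product, mem_filter, mem_range] at has
    obtain ⟨⟨ha, hA⟩, hs⟩ := has
    have hs' := hS s hs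
    obtain ⟨k, hk1, hk2⟩ := Nat.chineseRemainder hc a s
    have e1 : (k % (M * p)) % M = a := by
      rw [Nat.mod_mul_right_mod]
      have := hk1
      unfold Nat.ModEq at this
      rw [this, Nat.mod_eq_of_lt ha]
    have e2 : (k % (M * p)) % p = s := by
      rw [Nat.mod_mul_left_mod]
      have := hk2
      unfold Nat.ModEq at this
      rw [this, Nat.mod_eq_of_lt hs']
    refine ⟨k % (M * p), ?_, ?_⟩
    · rw [mem_filter, mem_range]
      refine ⟨Nat.mod_lt _ (Nat.mul_pos hM hp), ?_, ?_⟩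
      · rw [e1]; exact hA
      · rw [e2]; exact hs
    · rw [e1, e2]

/-- the classes modulo `30 d` -/
private def RR (S : ℕ → Finset ℕ) (b : ℕ) (T : Finset ℕ) : Finset ℕ :=
  (range (30 * ∏ p ∈ T, p)).filter (fun r => r % 30 = b ∧ ∀ p ∈ T, r % p ∈ S p)

private theorem card_RR (S : ℕ → Finset ℕ) (b : ℕ) (hb : b < 30) (T : Finset ℕ)
    (hT : ∀ p ∈ T, p.Prime ∧ 7 ≤ p ∧ ∀ s ∈ S p, s < p) : (RR S b T).card = ∏ p ∈ T, (S p).card := by
  induction T using Finset.induction_on with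
  | empty =>
    have h : RR S b ∅ = {b} := by
      ext r
      unfold RR
      simp only [prod_empty, mul_one, mem_filter, mem_range, notMem_empty, false_implies, implies_true, and_true,
        mem_singleton]
      omega
    rw [h]; simp
  | insert p T hpT ih =>
    have hT' : ∀ l ∈ T, l.Prime ∧ 7 ≤ l ∧ ∀ s ∈ S l, s < l := fun l hl => hT l (mem_insert_of_mem hl)
    obtain ⟨hp, hp7, hSp⟩ := hT p (mem_insert_self p T)
    have hpos : 0 < ∏ l ∈ T, l := Finset.prod_pos fun l hl => (hT' l hl).1.pos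
    have hM : 0 < 30 * ∏ l ∈ T, l := by omega
    have hcop : Nat.Coprime (30 * ∏ l ∈ T, l) p := by
      refine Nat.Coprime.mul_left ?_ ?_
      · rw [Nat.coprime_comm, Nat.Prime.coprime_iff_not_dvd hp]
        intro h
        have h30 : p ∣ 2 * 3 * 5 := by simpa using h
        rcases (Nat.Prime.dvd_mul hp).1 h30 with h1 | h1
        · rcases (Nat.Prime.dvd_mul hp).1 h1 with h2 | h2
          · have := Nat.le_of_dvd (by norm_num) h2; omega
          · have := Nat.le_of_dvd (by norm_num) h2; omega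
        · have := Nat.le_of_dvd (by norm_num) h1; omega
      · refine Nat.Coprime.prod_left fun l hl => ?_
        rw [Nat.coprime_primes (hT' l hl).1 hp]
        rintro rfl
        exact hpT hl
    have h := crt (30 * ∏ l ∈ T, l) p hM hp.pos hcop (fun r => r % 30 = b ∧ ∀ l ∈ T, r % l ∈ S l) (S p) hSp
    rw [Finset.prod_insert hpT, mul_comm (S p).card, ← ih hT']
    have h2 : RR S b (insert p T) = (range (30 * (∏ l ∈ T, l) * p)).filter (fun r =>
        ((r % (30 * ∏ l ∈ T, l)) % 30 = b ∧ ∀ l ∈ T, (r % (30 * ∏ l ∈ T, l)) % l ∈ S l) ∧ r % p ∈ S p) := by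
      unfold RR
      rw [Finset.prod_insert hpT]
      have e : 30 * (p * ∏ l ∈ T, l) = 30 * (∏ l ∈ T, l) * p := by ring
      rw [e]
      refine Finset.filter_congr fun r _ => ?_
      have e1 : (r % (30 * ∏ l ∈ T, l)) % 30 = r % 30 := Nat.mod_mod_of_dvd _ (dvd_mul_right _ _)
      have e2 : ∀ l ∈ T, (r % (30 * ∏ l ∈ T, l)) % l = r % l := fun l hl =>
        Nat.mod_mod_of_dvd _ (Dvd.dvd.mul_left (Finset.dvd_prod_of_mem _ hl) _)
      rw [e1]
      constructor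
      · rintro ⟨h3, h4⟩
        refine ⟨⟨h3, fun l hl => ?_⟩, h4 p (mem_insert_self p T)⟩
        rw [e2 l hl]; exact h4 l (mem_insert_of_mem hl)
      · rintro ⟨⟨h3, h4⟩, h5⟩
        refine ⟨h3, fun l hl => ?_⟩
        rcases mem_insert.1 hl with rfl | hl'
        · exact h5
        · have := h4 l hl'
          rwa [e2 l hl'] at this
    rw [h2, h]
    rfl

private theorem tot_prod (T : Finset ℕ) (hT : ∀ p ∈ T, p.Prime ∧ 7 ≤ p) :
    (Nat.totient (30 * ∏ p ∈ T, p) : ℝ) = 8 * ∏ p ∈ T, ((p : ℝ) - 1) := by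
  induction T using Finset.induction_on with
  | empty =>
    have : Nat.totient 30 = 8 := by decide
    simp [this]
  | insert p T hpT ih =>
    have hT' : ∀ l ∈ T, l.Prime ∧ 7 ≤ l := fun l hl => hT l (mem_insert_of_mem hl)
    obtain ⟨hp, hp7⟩ := hT p (mem_insert_self p T)
    have hcop : Nat.Coprime (30 * ∏ l ∈ T, l) p := by
      refine Nat.Coprime.mul_left ?_ ?_
      · rw [Nat.coprime_comm, Nat.Prime.coprime_iff_not_dvd hp]
        intro h
        have h30 : p ∣ 2 * 3 * 5 := by simpa using h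
        rcases (Nat.Prime.dvd_mul hp).1 h30 with h1 | h1
        · rcases (Nat.Prime.dvd_mul hp).1 h1 with h2 | h2
          · have := Nat.le_of_dvd (by norm_num) h2; omega
          · have := Nat.le_of_dvd (by norm_num) h2; omega
        · have := Nat.le_of_dvd (by norm_num) h1; omega
      · refine Nat.Coprime.prod_left fun l hl => ?_
        rw [Nat.coprime_primes (hT' l hl).1 hp]
        rintro rfl
        exact hpT hl
    rw [Finset.prod_insert hpT, Finset.prod_insert hpT]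
    have e : 30 * (p * ∏ l ∈ T, l) = 30 * (∏ l ∈ T, l) * p := by ring
    rw [e, Nat.totient_mul hcop, Nat.totient_prime hp]
    push_cast [Nat.cast_sub hp.one_lt.le]
    rw [ih hT']
    ring

/-! ### the discrepancy -/

private theorem per (ω : ℝ → ℝ) (x : ℝ) (q : ℕ) (a : ℤ) : Err ω x q a = Err ω x q (a % q) := by
  unfold Pool.Agent.Helper60.GP.Err
  have h1 : (II x).filter (fun n : ℕ => (q : ℤ) ∣ (n : ℤ) - a) =
      (II x).filter (fun n : ℕ => (q : ℤ) ∣ (n : ℤ) - a % q) := by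
    refine Finset.filter_congr (fun n _ => ?_)
    have h2 : (n : ℤ) - a % q - ((n : ℤ) - a) = q * (a / q) := by
      have h3 := Int.emod_add_mul_ediv a q
      linarith
    have h4 : (q : ℤ) ∣ (n : ℤ) - a % q - ((n : ℤ) - a) := by
      rw [h2]; exact dvd_mul_right _ _
    exact (dvd_iff_dvd_of_dvd_sub h4).symm
  rw [h1]

/-- class of maximal discrepancy -/
private theorem maxc (ω : ℝ → ℝ) (x : ℝ) (q : ℕ) (hq : 1 ≤ q) : ∃ c : ℤ,
    IsCoprime c (q : ℤ) ∧ ∀ a : ℤ, IsCoprime a (q : ℤ) → Err ω x q a ≤ Err ω x q c := by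
  have hq0 : (0 : ℤ) < q := by exact_mod_cast hq
  set S : Finset ℤ := (Finset.Ico (0 : ℤ) q).filter (fun a => IsCoprime a (q : ℤ)) with hS
  have hmem : ∀ a : ℤ, IsCoprime a (q : ℤ) → a % q ∈ S := by
    intro a ha
    rw [hS, Finset.mem_filter, Finset.mem_Ico]
    refine ⟨⟨Int.emod_nonneg _ hq0.ne', Int.emod_lt_of_pos _ hq0⟩, ?_⟩
    have h3 := Int.emod_add_mul_ediv a q
    have h4 : a % q = a + q * (-(a / q)) := by linarith
    rw [h4]
    exact IsCoprime.add_mul_left_left ha _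
  have hne : S.Nonempty := ⟨1 % q, hmem 1 isCoprime_one_left⟩
  obtain ⟨c, hc, hmax⟩ := Finset.exists_max_image S (fun a => Err ω x q a) hne
  refine ⟨c, (Finset.mem_filter.1 hc).2, fun a ha => ?_⟩
  rw [per ω x q a]
  exact hmax _ (hmem a ha)

/-- the contribution of the integers which are not prime -/
private def PP (ω : ℝ → ℝ) (x : ℝ) : ℝ := ∑ q ∈ (II x).filter (fun q => ¬ q.Prime), wq ω x q

private theorem wq_nn (ω : ℝ → ℝ) (hω : IsB ω) (x : ℝ) (q : ℕ) : 0 ≤ wq ω x q :=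
  mul_nonneg vonMangoldt_nonneg (hω.nonneg _)

private theorem PP_nn (ω : ℝ → ℝ) (hω : IsB ω) (x : ℝ) : 0 ≤ PP ω x :=
  Finset.sum_nonneg fun q _ => wq_nn ω hω x q

private theorem PP_le (ω : ℝ → ℝ) (hω : IsB ω) (x : ℝ) (hx : 1 ≤ x) : PP ω x ≤ √(3 * x) * Real.log (3 * x) := by
  have h1 := Chebyshev.abs_psi_sub_theta_le_sqrt_mul_log (x := 3 * x) (by linarith)
  have h2 := (le_abs_self _).trans h1
  have hI : Ioc 0 ⌊3 * x⌋₊ = II x := by
    ext n
    unfold Pool.Agent.Helper60.GP.II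
    simp only [mem_Ioc, mem_Icc]
    omega
  have h3 : Chebyshev.psi (3 * x) - Chebyshev.theta (3 * x) =
      ∑ q ∈ (II x).filter (fun q => ¬ q.Prime), Λ q := by
    unfold Chebyshev.psi Chebyshev.theta
    rw [hI, ← Finset.sum_filter_add_sum_filter_not (II x) (fun q => q.Prime) (fun q => Λ q)]
    have h4 : ∑ q ∈ (II x).filter (fun q => q.Prime), Λ q =
        ∑ q ∈ (II x).filter (fun q => q.Prime), Real.log q :=
      Finset.sum_congr rfl fun q hq => vonMangoldt_apply_prime (mem_filter.1 hq).2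
    rw [h4]; ring
  rw [h3] at h2
  have h5 : PP ω x ≤ ∑ q ∈ (II x).filter (fun q => ¬ q.Prime), Λ q * (1 / 2) := by
    unfold PP
    refine Finset.sum_le_sum fun q _ => ?_
    unfold wq
    exact mul_le_mul_of_nonneg_left (hω.le_half _) vonMangoldt_nonneg
  rw [← Finset.sum_mul] at h5
  have h6 : (∑ q ∈ (II x).filter (fun q => ¬ q.Prime), Λ q) * (1 / 2) ≤
      (2 * √(3 * x) * Real.log (3 * x)) * (1 / 2) := by linarith
  calc PP ω x ≤ _ := h5
    _ ≤ _ := h6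
    _ = √(3 * x) * Real.log (3 * x) := by ring

/-! ### one set of primes -/

private theorem Th_eq (ω : ℝ → ℝ) (x : ℝ) : Th ω x = ∑ q ∈ II x, wq ω x q := rfl

private theorem wq_supp (ω : ℝ → ℝ) (hω : IsB ω) (x : ℝ) (hx : 0 < x) (q : ℕ) (hq : 1 ≤ q) (h : wq ω x q ≠ 0) :
    x ≤ q := by
  by_contra hcon
  push Not at hcon
  apply h
  unfold wq
  rw [hω.supp, mul_zero]
  intro hmem
  have h1 := hmem.1
  have hq0 : (0 : ℝ) < q := by exact_mod_cast hq
  have h2 : Real.log ((q : ℝ) / x) < 0 := Real.log_neg (by positivity) (by rw [div_lt_one hx]; exact hcon)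
  linarith

private theorem one_set (ω : ℝ → ℝ) (hω : IsB ω) (x : ℝ) (hx : 0 < x) (n c b : ℕ) (hb : b < 30)
    (hb2 : Nat.Coprime b 30) (T : Finset ℕ) (hT : ∀ p ∈ T, p.Prime ∧ 7 ≤ p) (hd : ((∏ p ∈ T, p : ℕ) : ℝ) < x)
    (E : ℝ) (hE : ∀ r : ℤ, IsCoprime r ((30 * ∏ p ∈ T, p : ℕ) : ℤ) → Err ω x (30 * ∏ p ∈ T, p) r ≤ E) :
    |∑ q ∈ PB x b, wq ω x q * ∏ p ∈ T, (if p ∣ vv n c q then (1 : ℝ) else 0) -
      Th ω x / 8 * ∏ p ∈ T, gd n c p| ≤ (∏ p ∈ T, ((rt n c p).card : ℝ)) * E + PP ω x := by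
  set d : ℕ := ∏ p ∈ T, p with hdd
  have hdpos : 0 < d := Finset.prod_pos fun p hp => (hT p hp).1.pos
  set R : Finset ℕ := RR (rt n c) b T with hR
  have hcard : R.card = ∏ p ∈ T, (rt n c p).card := card_RR (rt n c) b hb T fun p hp =>
    ⟨(hT p hp).1, (hT p hp).2, fun s hs => by
      unfold rt at hs
      exact mem_range.1 (mem_filter.1 hs).1⟩
  have hRmem : ∀ q : ℕ, q % (30 * d) ∈ R ↔ (q % 30 = b ∧ ∀ p ∈ T, q % p ∈ rt n c p) := by
    intro q
    rw [hR]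
    unfold RR
    rw [mem_filter, mem_range]
    have e1 : (q % (30 * d)) % 30 = q % 30 := Nat.mod_mod_of_dvd _ (dvd_mul_right _ _)
    have e2 : ∀ l ∈ T, (q % (30 * d)) % l = q % l := fun l hl =>
      Nat.mod_mod_of_dvd _ (Dvd.dvd.mul_left (Finset.dvd_prod_of_mem _ hl) _)
    rw [e1]
    constructor
    · rintro ⟨_, h2, h3⟩
      exact ⟨h2, fun p hp => by have := h3 p hp; rwa [e2 p hp] at this⟩
    · rintro ⟨h2, h3⟩
      exact ⟨Nat.mod_lt _ (by omega), h2, fun p hp => by rw [e2 p hp]; exact h3 p hp⟩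
  -- the sum over the primes
  have hS1 : ∑ q ∈ PB x b, wq ω x q * ∏ p ∈ T, (if p ∣ vv n c q then (1 : ℝ) else 0) =
      ∑ q ∈ (II x).filter (fun q => q.Prime), (if q % (30 * d) ∈ R then wq ω x q else 0) := by
    have e : PB x b = ((II x).filter (fun q => q.Prime)).filter (fun q => q % 30 = b) := by
      unfold PB
      rw [Finset.filter_filter]
    rw [e, Finset.sum_filter]
    refine Finset.sum_congr rfl fun q hq => ?_
    rw [mem_filter] at hq
    have hq1 : 1 ≤ q := hq.2.one_lt.le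
    by_cases h0 : wq ω x q = 0
    · rw [h0]; simp
    have hxq := wq_supp ω hω x hx q hq1 h0
    have hqd : d < q := by
      have : (d : ℝ) < q := lt_of_lt_of_le hd hxq
      exact_mod_cast this
    have hiff : (∀ p ∈ T, p ∣ vv n c q) ↔ ∀ p ∈ T, q % p ∈ rt n c p := by
      refine forall₂_congr fun p hp => ?_
      unfold rt
      rw [mem_filter, mem_range, vv_mod]
      constructor
      · intro h
        refine ⟨Nat.mod_lt _ (hT p hp).1.pos, ?_, h⟩
        intro h0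
        have h1 : p ∣ q := Nat.dvd_of_mod_eq_zero h0
        have h2 : p = q := (Nat.prime_dvd_prime_iff_eq (hT p hp).1 hq.2).1 h1
        have h3 : p ≤ d := Nat.le_of_dvd hdpos (Finset.dvd_prod_of_mem _ hp)
        omega
      · intro h; exact h.2.2
    rw [Finset.prod_ite_zero]
    simp only [Finset.prod_const_one]
    by_cases h1 : q % 30 = b
    · rw [if_pos h1]
      by_cases h2 : ∀ p ∈ T, p ∣ vv n c q
      · rw [if_pos h2, if_pos ((hRmem q).2 ⟨h1, hiff.1 h2⟩), mul_one]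
      · rw [if_neg h2, if_neg (fun h => h2 (hiff.2 ((hRmem q).1 h).2)), mul_zero]
    · rw [if_neg h1, if_neg (fun h => h1 ((hRmem q).1 h).1)]
  have hS2 : ∑ q ∈ (II x).filter (fun q => q.Prime), (if q % (30 * d) ∈ R then wq ω x q else 0) =
      ∑ q ∈ II x, (if q % (30 * d) ∈ R then wq ω x q else 0) -
      ∑ q ∈ (II x).filter (fun q => ¬ q.Prime), (if q % (30 * d) ∈ R then wq ω x q else 0) := by
    rw [← Finset.sum_filter_add_sum_filter_not (II x) (fun q => q.Prime)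
      (fun q => if q % (30 * d) ∈ R then wq ω x q else 0)]
    ring
  have hN1 : 0 ≤ ∑ q ∈ (II x).filter (fun q => ¬ q.Prime), (if q % (30 * d) ∈ R then wq ω x q else 0) := by
    refine Finset.sum_nonneg fun q _ => ?_
    split_ifs
    · exact wq_nn ω hω x q
    · exact le_rfl
  have hN2 : ∑ q ∈ (II x).filter (fun q => ¬ q.Prime), (if q % (30 * d) ∈ R then wq ω x q else 0) ≤ PP ω x := by
    unfold PP
    refine Finset.sum_le_sum fun q _ => ?_
    split_ifs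
    · exact le_rfl
    · exact wq_nn ω hω x q
  -- the classes
  have hS3 : ∑ q ∈ II x, (if q % (30 * d) ∈ R then wq ω x q else 0) =
      ∑ r ∈ R, ∑ q ∈ (II x).filter (fun q : ℕ => ((30 * d : ℕ) : ℤ) ∣ (q : ℤ) - (r : ℤ)), wq ω x q := by
    simp_rw [Finset.sum_filter]
    rw [Finset.sum_comm]
    refine Finset.sum_congr rfl fun q _ => ?_
    have h1 : ∀ r ∈ R, (if ((30 * d : ℕ) : ℤ) ∣ (q : ℤ) - (r : ℤ) then wq ω x q else 0) =
        (if r = q % (30 * d) then wq ω x q else 0) := by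
      intro r hr
      have hr' : r < 30 * d := by
        rw [hR] at hr
        unfold RR at hr
        exact mem_range.1 (mem_filter.1 hr).1
      have h2 : (((30 * d : ℕ) : ℤ) ∣ (q : ℤ) - (r : ℤ)) ↔ r = q % (30 * d) := by
        rw [← Nat.modEq_iff_dvd]
        unfold Nat.ModEq
        rw [Nat.mod_eq_of_lt hr']
      by_cases h3 : r = q % (30 * d)
      · rw [if_pos h3, if_pos (h2.2 h3)]
      · rw [if_neg h3, if_neg (fun h => h3 (h2.1 h))]
    rw [Finset.sum_congr rfl h1, Finset.sum_ite_eq']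
  have htot : (Nat.totient (30 * d) : ℝ) = 8 * ∏ p ∈ T, ((p : ℝ) - 1) := tot_prod T hT
  have hM : Th ω x / 8 * ∏ p ∈ T, gd n c p = ∑ r ∈ R, Th ω x / (Nat.totient (30 * d) : ℝ) := by
    rw [Finset.sum_const, nsmul_eq_mul, hcard, htot]
    unfold gd
    rw [Finset.prod_div_distrib, Nat.cast_prod]
    generalize Th ω x = t
    ring
  have hcl : |∑ q ∈ II x, (if q % (30 * d) ∈ R then wq ω x q else 0) - Th ω x / 8 * ∏ p ∈ T, gd n c p| ≤
      (∏ p ∈ T, ((rt n c p).card : ℝ)) * E := by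
    rw [hS3, hM, ← Finset.sum_sub_distrib]
    refine (Finset.abs_sum_le_sum_abs _ _).trans ?_
    have h1 : ∀ r ∈ R, |∑ q ∈ (II x).filter (fun q : ℕ => ((30 * d : ℕ) : ℤ) ∣ (q : ℤ) - (r : ℤ)), wq ω x q -
        Th ω x / (Nat.totient (30 * d) : ℝ)| ≤ E := by
      intro r hr
      refine hE r ?_
      rw [Nat.isCoprime_iff_coprime]
      rw [hR] at hr
      unfold RR at hr
      rw [mem_filter] at hr
      obtain ⟨_, hr1, hr2⟩ := hr
      refine Nat.Coprime.mul_right ?_ ?_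
      · have h2 : Nat.gcd r 30 = Nat.gcd (r % 30) 30 := by
          rw [Nat.gcd_comm r 30, Nat.gcd_rec 30 r]
        unfold Nat.Coprime
        rw [h2, hr1]
        exact hb2
      · refine Nat.Coprime.prod_right fun p hp => ?_
        rw [Nat.coprime_comm, Nat.Prime.coprime_iff_not_dvd (hT p hp).1]
        intro h
        have h2 := hr2 p hp
        unfold rt at h2
        rw [mem_filter] at h2
        exact h2.2.1 (Nat.mod_eq_zero_of_dvd h)
    refine (Finset.sum_le_card_nsmul _ _ _ h1).trans ?_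
    rw [nsmul_eq_mul, hcard, Nat.cast_prod]
  rw [hS1, hS2]
  rw [abs_le] at hcl ⊢
  constructor
  · linarith
  · linarith [PP_nn ω hω x]

/-! ### assembly -/

private theorem fm_sub (i a : ℕ) (θ : ℝ) (u : ℕ) (D : Finset ℕ) (h : D ∈ fm i a θ u) :
    D ∈ fam0 ⌊(a : ℝ) ^ θ⌋₊ u (Qs a θ) ∪ fam1 ⌊(a : ℝ) ^ θ⌋₊ u (Qs a θ) := by
  unfold fm at h
  split_ifs at h with h0
  · exact mem_union_left _ h
  · exact h

private theorem fam_sub (w b : ℕ) (Q D : Finset ℕ) (h : D ∈ fam0 w b Q ∪ fam1 w b Q) : D ⊆ Q := by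
  rcases mem_union.mp h with h | h
  · simp only [fam0, Finset.mem_filter, Finset.mem_powerset] at h
    exact h.1
  · simp only [fam1, Finset.mem_filter, Finset.mem_powerset] at h
    exact h.1

private theorem Qs_pr (a : ℕ) (θ : ℝ) (p : ℕ) (h : p ∈ Qs a θ) :
    p.Prime ∧ p ≤ ⌊(a : ℝ) ^ θ⌋₊ ∧ (p : ℝ) < (a : ℝ) ^ θ ∧ 7 ≤ p := by
  unfold Qs at h
  rw [mem_filter, mem_Icc] at h
  exact ⟨h.2.1, h.1.2, h.2.2, h.1.1⟩

/-- the divisor sums -/
private theorem divsum (v N : ℕ) (lam : ℕ → ℝ) (hv : 1 ≤ v) (hlam : ∀ q, lam q ≠ 0 → Squarefree q ∧ q ≤ N) :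
    ∑ q ∈ v.divisors, lam q = ∑ q ∈ range (N + 1), lam q *
      ∏ p ∈ q.primeFactors, (if p ∣ v then (1 : ℝ) else 0) := by
  have h1 : ∑ q ∈ v.divisors, lam q = ∑ q ∈ v.divisors.filter (fun q => q ≤ N), lam q := by
    rw [Finset.sum_filter]
    refine Finset.sum_congr rfl fun q _ => ?_
    split_ifs with h
    · rfl
    · by_contra h0
      exact h (hlam q h0).2
  have h2 : v.divisors.filter (fun q => q ≤ N) = (range (N + 1)).filter (fun q => q ∣ v) := by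
    ext q
    rw [mem_filter, Nat.mem_divisors, mem_filter, mem_range]
    constructor
    · rintro ⟨⟨h1, _⟩, h2⟩
      exact ⟨by omega, h1⟩
    · rintro ⟨h1, h2⟩
      exact ⟨⟨h2, by omega⟩, by omega⟩
  rw [h1, h2, Finset.sum_filter]
  refine sum_congr rfl fun q _ => ?_
  by_cases h0 : lam q = 0
  · rw [h0, zero_mul, ite_self]
  · have hs := (hlam q h0).1
    rw [Finset.prod_ite_zero]
    simp only [Finset.prod_const_one]
    have hiff : q ∣ v ↔ ∀ p ∈ q.primeFactors, p ∣ v := by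
      constructor
      · intro hd p hp
        exact (Nat.dvd_of_mem_primeFactors hp).trans hd
      · intro hd
        rw [← Nat.prod_primeFactors_of_squarefree hs]
        exact Finset.prod_primes_dvd _ (fun p hp => (Nat.prime_of_mem_primeFactors hp).prime) hd
    by_cases h5 : q ∣ v
    · rw [if_pos h5, if_pos (hiff.mp h5), mul_one]
    · rw [if_neg h5, if_neg (fun h => h5 (hiff.mpr h)), mul_zero]

/-- exchange of the sums -/
private theorem alg (J : Finset ℕ) (W : ℕ → ℝ) (K : ℝ) (F : Finset (Finset ℕ)) (Q : Finset ℕ) (lam : ℕ → ℝ)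
    (c : ℕ → ℕ → ℝ) (g : ℕ → ℝ) :
    ∑ j ∈ J, W j * ((∑ D ∈ F, (-1 : ℝ) ^ D.card * ∏ p ∈ D, c j p) *
        (∑ q ∈ Q, lam q * ∏ p ∈ q.primeFactors, c j p)) -
      K * (∑ D ∈ F, (-1 : ℝ) ^ D.card * ∏ p ∈ D, g p) *
        (∑ q ∈ Q, lam q * ∏ p ∈ q.primeFactors, g p) =
      ∑ D ∈ F, ∑ q ∈ Q, (-1 : ℝ) ^ D.card * lam q *
        (∑ j ∈ J, W j * ((∏ p ∈ D, c j p) * ∏ p ∈ q.primeFactors, c j p) -
          K * ((∏ p ∈ D, g p) * ∏ p ∈ q.primeFactors, g p)) := by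
  have h1 : ∑ j ∈ J, W j * ((∑ D ∈ F, (-1 : ℝ) ^ D.card * ∏ p ∈ D, c j p) *
        (∑ q ∈ Q, lam q * ∏ p ∈ q.primeFactors, c j p)) =
      ∑ D ∈ F, ∑ q ∈ Q, (-1 : ℝ) ^ D.card * lam q *
        ∑ j ∈ J, W j * ((∏ p ∈ D, c j p) * ∏ p ∈ q.primeFactors, c j p) := by
    have h0 : ∀ j ∈ J, W j * ((∑ D ∈ F, (-1 : ℝ) ^ D.card * ∏ p ∈ D, c j p) *
        (∑ q ∈ Q, lam q * ∏ p ∈ q.primeFactors, c j p)) = ∑ D ∈ F, ∑ q ∈ Q, (-1 : ℝ) ^ D.card * lam q *
        (W j * ((∏ p ∈ D, c j p) * ∏ p ∈ q.primeFactors, c j p)) := by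
      intro j _
      rw [Finset.sum_mul_sum, Finset.mul_sum]
      refine sum_congr rfl fun D _ => ?_
      rw [Finset.mul_sum]
      refine sum_congr rfl fun q _ => ?_
      ring
    rw [Finset.sum_congr rfl h0, Finset.sum_comm]
    refine sum_congr rfl fun D _ => ?_
    rw [Finset.sum_comm]
    refine sum_congr rfl fun q _ => ?_
    rw [Finset.mul_sum]
  have h2 : K * (∑ D ∈ F, (-1 : ℝ) ^ D.card * ∏ p ∈ D, g p) *
        (∑ q ∈ Q, lam q * ∏ p ∈ q.primeFactors, g p) =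
      ∑ D ∈ F, ∑ q ∈ Q, (-1 : ℝ) ^ D.card * lam q *
        (K * ((∏ p ∈ D, g p) * ∏ p ∈ q.primeFactors, g p)) := by
    rw [mul_assoc, Finset.sum_mul_sum, Finset.mul_sum]
    refine sum_congr rfl fun D _ => ?_
    rw [Finset.mul_sum]
    refine sum_congr rfl fun q _ => ?_
    ring
  rw [h1, h2, ← Finset.sum_sub_distrib]
  refine sum_congr rfl fun D _ => ?_
  rw [← Finset.sum_sub_distrib]
  refine sum_congr rfl fun q _ => ?_
  ring

private theorem asym (A : ℕ) (x₀ : ℝ) : ∃ x₁ : ℝ, ∀ x : ℝ, x₁ ≤ x → 1 < x ∧ x₀ ≤ x ∧ 2 ≤ Real.log x ∧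
    x ^ (49 / 100 : ℝ) * (√(3 * x) * Real.log (3 * x)) ≤ 1 / 2 * (x / Real.log x ^ A) := by
  have h1 := isLittleO_log_rpow_rpow_atTop ((A : ℝ) + 1) (show (0 : ℝ) < 1 / 100 by norm_num)
  have h2 := h1.bound (show (0 : ℝ) < 1 / 8 by norm_num)
  obtain ⟨x₂, hx₂⟩ := Filter.eventually_atTop.1 h2
  refine ⟨max (max x₀ x₂) (Real.exp 2), fun x hx => ?_⟩
  have hx0 : x₀ ≤ x := ((le_max_left _ _).trans (le_max_left _ _)).trans hx
  have hx2 : x₂ ≤ x := ((le_max_right _ _).trans (le_max_left _ _)).trans hx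
  have hxe : Real.exp 2 ≤ x := (le_max_right _ _).trans hx
  have hxpos : 0 < x := (Real.exp_pos 2).trans_le hxe
  have hx1 : 1 < x := lt_of_lt_of_le (by
    have := Real.add_one_lt_exp (show (2 : ℝ) ≠ 0 by norm_num)
    linarith) hxe
  have hL : 2 ≤ Real.log x := by rw [Real.le_log_iff_exp_le hxpos]; exact hxe
  have hL0 : 0 < Real.log x := by linarith
  refine ⟨hx1, hx0, hL, ?_⟩
  have h3 := hx₂ x hx2
  rw [Real.norm_eq_abs, Real.norm_eq_abs, abs_of_nonneg (by positivity), abs_of_nonneg (by positivity)] at h3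
  have h4 : Real.log x ^ ((A : ℝ) + 1) = Real.log x ^ (A + 1) := by
    rw [← Real.rpow_natCast]; push_cast; rfl
  rw [h4] at h3
  have h5 : √(3 * x) ≤ 2 * x ^ (1 / 2 : ℝ) := by
    rw [← Real.sqrt_eq_rpow]
    have h6 : (2 : ℝ) * √x = √(4 * x) := by
      rw [Real.sqrt_mul (by norm_num), show (4 : ℝ) = 2 ^ 2 by norm_num, Real.sqrt_sq (by norm_num)]
    rw [h6]
    exact Real.sqrt_le_sqrt (by linarith)
  have h7 : Real.log (3 * x) ≤ 2 * Real.log x := by
    rw [Real.log_mul (by norm_num) hxpos.ne']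
    have h8 : Real.log 3 ≤ 2 := by
      have := Real.log_le_sub_one_of_pos (show (0 : ℝ) < 3 by norm_num)
      linarith
    linarith
  have h9 : 0 ≤ Real.log (3 * x) := Real.log_nonneg (by linarith)
  rw [← mul_div_assoc, le_div_iff₀ (by positivity)]
  calc x ^ (49 / 100 : ℝ) * (√(3 * x) * Real.log (3 * x)) * Real.log x ^ A
      ≤ x ^ (49 / 100 : ℝ) * ((2 * x ^ (1 / 2 : ℝ)) * (2 * Real.log x)) * Real.log x ^ A := by gcongr
    _ = 4 * (x ^ (49 / 100 : ℝ) * x ^ (1 / 2 : ℝ)) * Real.log x ^ (A + 1) := by ring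
    _ ≤ 4 * (x ^ (49 / 100 : ℝ) * x ^ (1 / 2 : ℝ)) * (1 / 8 * x ^ (1 / 100 : ℝ)) := by gcongr
    _ = 1 / 2 * (x ^ (49 / 100 : ℝ) * x ^ (1 / 2 : ℝ) * x ^ (1 / 100 : ℝ)) := by ring
    _ = 1 / 2 * x := by
        rw [← Real.rpow_add hxpos, ← Real.rpow_add hxpos]
        norm_num

/-- Module LVE. -/
theorem hLVE (hB : StBVE) (hLv : StLevel) (hR : StRT) (hDB : StDB) : StLVE := by
  have _ := hDB
  intro ω hω f
  obtain ⟨B₀, hB₀⟩ := hLv f
  refine ⟨1 / (1000 * ((B₀ : ℝ) + 1)), by positivity, ?_, fun θ hθ hθ1 A => ?_⟩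
  · rw [div_le_div_iff₀ (by positivity) (by norm_num)]
    have : (0 : ℝ) ≤ B₀ := Nat.cast_nonneg _
    linarith
  obtain ⟨x₀, hx₀⟩ := hB ω hω (A + 1) (49 / 100) (by norm_num) (by norm_num)
  obtain ⟨x₁, hx₁⟩ := asym A x₀
  have ev1 : ∀ᶠ a : ℕ in atTop, 8 ≤ (a : ℝ) ^ θ :=
    ((tendsto_rpow_atTop hθ).comp tendsto_natCast_atTop_atTop).eventually_ge_atTop 8
  have ev2 : ∀ᶠ a : ℕ in atTop, x₁ ≤ (a : ℝ) ^ (999 / 1000 : ℝ) :=
    ((tendsto_rpow_atTop (show (0 : ℝ) < 999 / 1000 by norm_num)).comp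
      tendsto_natCast_atTop_atTop).eventually_ge_atTop x₁
  obtain ⟨a₀, ha₀⟩ := Filter.eventually_atTop.1 ((ev1.and ev2).and (eventually_ge_atTop 1))
  refine ⟨a₀, ?_⟩
  intro i a n c b j0 j x ω' y B lam ha hcn hb hb2 hxa hxa' hω' hj0 hB0 hy0 hy1 hSW
  obtain ⟨⟨ha8, hax₁⟩, ha1⟩ := ha₀ a ha
  obtain ⟨hx1, hxx₀, hL, hPPx⟩ := hx₁ x (hax₁.trans hxa)
  have haR : (1 : ℝ) ≤ a := by exact_mod_cast ha1
  have ha0 : (0 : ℝ) < a := by linarith
  have hx0 : 0 < x := by linarith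
  set w : ℕ := ⌊(a : ℝ) ^ θ⌋₊ with hw
  have hw1 : 1 ≤ w := by
    rw [hw]
    refine Nat.le_floor ?_
    rw [Nat.cast_one]
    linarith
  have hθB : θ * B₀ ≤ 1 / 1000 := by
    have h1 : θ * (1000 * ((B₀ : ℝ) + 1)) ≤ 1 := by
      rwa [le_div_iff₀ (by positivity)] at hθ1
    nlinarith
  have hwR : (w : ℝ) ≤ (a : ℝ) ^ θ := by
    rw [hw]
    exact Nat.floor_le (by positivity)
  have hwB : ((w ^ B₀ : ℕ) : ℝ) ≤ (a : ℝ) ^ (1 / 1000 : ℝ) := by
    push_cast
    calc (w : ℝ) ^ B₀ ≤ ((a : ℝ) ^ θ) ^ B₀ := pow_le_pow_left₀ (by positivity) hwR _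
      _ = (a : ℝ) ^ (θ * B₀) := by rw [← Real.rpow_natCast, ← Real.rpow_mul ha0.le]
      _ ≤ _ := Real.rpow_le_rpow_of_exponent_le haR hθB
  have hQ : ∀ p ∈ Qs a θ, p.Prime ∧ p ≤ w := fun p hp => ⟨(Qs_pr a θ p hp).1, (Qs_pr a θ p hp).2.1⟩
  have hDQ : ∀ D ∈ fm i a θ f, D ⊆ Qs a θ := fun D hD => fam_sub _ _ _ _ (fm_sub i a θ f D hD)
  have hlev : ∀ D ∈ fm i a θ f, ∏ p ∈ D, p ≤ w ^ B₀ := fun D hD =>
    hB₀ w hw1 (Qs a θ) hQ D (fm_sub i a θ f D hD)
  -- the support of `lam`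
  have hsq : ∀ m, lam m ≠ 0 → Squarefree m := fun m hm => ((hSW m).2 hm).1
  have hmle : ∀ m, lam m ≠ 0 → (m : ℝ) ≤ (a : ℝ) ^ (48 / 100 : ℝ) := fun m hm =>
    ((hSW m).2 hm).2.2.trans (Real.rpow_le_rpow_of_exponent_le haR hy1)
  have hmp : ∀ m, lam m ≠ 0 → ∀ p ∈ m.primeFactors, (a : ℝ) ^ θ ≤ (p : ℝ) := by
    intro m hm p hp
    have h1 := ((hSW m).2 hm).2.1 p (Nat.prime_of_mem_primeFactors hp) (Nat.dvd_of_mem_primeFactors hp)
    unfold Pq at h1
    rw [mem_biUnion] at h1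
    obtain ⟨i', hi', hp'⟩ := h1
    unfold bq at hp'
    rw [mem_filter] at hp'
    rw [mem_Ico] at hi'
    refine le_trans ?_ hp'.2.2
    refine Real.rpow_le_rpow_of_exponent_le haR (hj0.trans ?_)
    refine mul_le_mul_of_nonneg_right ?_ hω'.le
    exact_mod_cast hi'.1
  have hma : ∀ m, lam m ≠ 0 → m ≤ a ^ 2 := by
    intro m hm
    have h1 : (m : ℝ) ≤ (a : ℝ) ^ (2 : ℝ) := (hmle m hm).trans
      (Real.rpow_le_rpow_of_exponent_le haR (by norm_num))
    have h2 : (a : ℝ) ^ (2 : ℝ) = ((a ^ 2 : ℕ) : ℝ) := by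
      push_cast
      exact_mod_cast Real.rpow_natCast (a : ℝ) 2
    rw [h2] at h1
    exact_mod_cast h1
  -- the pairs
  have hdis : ∀ D ∈ fm i a θ f, ∀ m, lam m ≠ 0 → Disjoint D m.primeFactors := by
    intro D hD m hm
    rw [Finset.disjoint_left]
    intro p hp hp'
    have h1 := (Qs_pr a θ p (hDQ D hD hp)).2.2.1
    have h2 := hmp m hm p hp'
    linarith
  have hT : ∀ D ∈ fm i a θ f, ∀ m, lam m ≠ 0 → ∀ p ∈ D ∪ m.primeFactors, p.Prime ∧ 7 ≤ p := by
    intro D hD m hm p hp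
    rcases mem_union.mp hp with h | h
    · exact ⟨(Qs_pr a θ p (hDQ D hD h)).1, (Qs_pr a θ p (hDQ D hD h)).2.2.2⟩
    · refine ⟨Nat.prime_of_mem_primeFactors h, ?_⟩
      have h2 : (8 : ℝ) ≤ p := ha8.trans (hmp m hm p h)
      have h3 : 8 ≤ p := by exact_mod_cast h2
      omega
  have hdle : ∀ D ∈ fm i a θ f, ∀ m, lam m ≠ 0 → ((∏ p ∈ D ∪ m.primeFactors, p : ℕ) : ℝ) ≤ x ^ (49 / 100 : ℝ) := by
    intro D hD m hm
    rw [Finset.prod_union (hdis D hD m hm), Nat.prod_primeFactors_of_squarefree (hsq m hm), Nat.cast_mul]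
    have h2 : ((∏ p ∈ D, p : ℕ) : ℝ) ≤ (a : ℝ) ^ (1 / 1000 : ℝ) := by
      refine le_trans ?_ hwB
      exact_mod_cast hlev D hD
    calc ((∏ p ∈ D, p : ℕ) : ℝ) * (m : ℝ) ≤ (a : ℝ) ^ (1 / 1000 : ℝ) * (a : ℝ) ^ (48 / 100 : ℝ) :=
          mul_le_mul h2 (hmle m hm) (Nat.cast_nonneg _) (by positivity)
      _ = (a : ℝ) ^ (481 / 1000 : ℝ) := by
          rw [← Real.rpow_add ha0]
          norm_num
      _ ≤ (a : ℝ) ^ ((999 / 1000 : ℝ) * (49 / 100 : ℝ)) :=
          Real.rpow_le_rpow_of_exponent_le haR (by norm_num)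
      _ = ((a : ℝ) ^ (999 / 1000 : ℝ)) ^ (49 / 100 : ℝ) := Real.rpow_mul ha0.le _ _
      _ ≤ x ^ (49 / 100 : ℝ) := Real.rpow_le_rpow (by positivity) hxa (by norm_num)
  have hx49 : x ^ (49 / 100 : ℝ) < x := by
    calc x ^ (49 / 100 : ℝ) < x ^ (1 : ℝ) := Real.rpow_lt_rpow_of_exponent_lt hx1 (by norm_num)
      _ = x := Real.rpow_one x
  -- the classes
  have hcc : ∀ q : ℕ, ∃ cl : ℤ, 1 ≤ q → IsCoprime cl (q : ℤ) ∧
      ∀ r : ℤ, IsCoprime r (q : ℤ) → Err ω x q r ≤ Err ω x q cl := by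
    intro q
    by_cases hq : 1 ≤ q
    · obtain ⟨cl, hcl⟩ := maxc ω x q hq
      exact ⟨cl, fun _ => hcl⟩
    · exact ⟨1, fun h => absurd h hq⟩
  choose cl hcl using hcc
  have hE0 : ∀ q, 0 ≤ Err ω x q (cl q) := fun q => abs_nonneg _
  have hBV := hx₀ x hxx₀ cl (fun q hq => (hcl q hq).1)
  have hPn := PP_nn ω hω x
  have hPl := PP_le ω hω x hx1.le
  set G : ℕ → ℝ := fun d => (2 : ℝ) ^ d.primeFactors.card * Err ω x (30 * d) (cl (30 * d)) + PP ω x with hG
  have hG0 : ∀ d, 0 ≤ G d := fun d => by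
    rw [hG]
    exact add_nonneg (mul_nonneg (by positivity) (hE0 _)) hPn
  have hpair : ∀ D ∈ fm i a θ f, ∀ m, lam m ≠ 0 →
      |∑ q ∈ PB x b, wq ω x q * ((∏ p ∈ D, (if p ∣ vv n c q then (1 : ℝ) else 0)) *
          ∏ p ∈ m.primeFactors, (if p ∣ vv n c q then (1 : ℝ) else 0)) -
        Th ω x / 8 * ((∏ p ∈ D, gd n c p) * ∏ p ∈ m.primeFactors, gd n c p)| ≤
      G (∏ p ∈ D ∪ m.primeFactors, p) := by
    intro D hD m hm
    have hpos : 1 ≤ 30 * ∏ p ∈ D ∪ m.primeFactors, p := by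
      have : 0 < ∏ p ∈ D ∪ m.primeFactors, p := Finset.prod_pos fun p hp => (hT D hD m hm p hp).1.pos
      omega
    have h1 := one_set ω hω x hx0 n c b hb hb2 (D ∪ m.primeFactors) (hT D hD m hm)
      ((hdle D hD m hm).trans_lt hx49) (Err ω x (30 * ∏ p ∈ D ∪ m.primeFactors, p)
        (cl (30 * ∏ p ∈ D ∪ m.primeFactors, p))) (fun r hr => (hcl _ hpos).2 r hr)
    simp only [Finset.prod_union (hdis D hD m hm)] at h1
    refine h1.trans ?_
    rw [hG]
    simp only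
    rw [← Finset.prod_union (hdis D hD m hm), ← Finset.prod_union (hdis D hD m hm),
      Nat.primeFactors_prod (fun p hp => (hT D hD m hm p hp).1)]
    refine add_le_add ?_ le_rfl
    refine mul_le_mul_of_nonneg_right ?_ (hE0 _)
    calc ∏ p ∈ D ∪ m.primeFactors, ((rt n c p).card : ℝ) ≤ ∏ p ∈ D ∪ m.primeFactors, (2 : ℝ) := by
          refine Finset.prod_le_prod (fun _ _ => Nat.cast_nonneg _) fun p hp => ?_
          exact_mod_cast (hR n c p (hT D hD m hm p hp).1 hcn).1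
      _ = _ := by rw [Finset.prod_const]
  -- the sum
  have hc1 : 1 ≤ c := by
    rcases Nat.eq_zero_or_pos c with h | h
    · rw [h, Nat.coprime_zero_left] at hcn
      omega
    · exact h
  have hrew : ∀ q ∈ PB x b, wq ω x q * (tq i a θ f n c q * ∑ m ∈ (vv n c q).divisors, lam m) =
      wq ω x q * ((∑ D ∈ fm i a θ f, (-1 : ℝ) ^ D.card *
        ∏ p ∈ D, (if p ∣ vv n c q then (1 : ℝ) else 0)) *
      ∑ m ∈ range (a ^ 2 + 1), lam m *
        ∏ p ∈ m.primeFactors, (if p ∣ vv n c q then (1 : ℝ) else 0)) := by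
    intro q _
    have hv1 : 1 ≤ vv n c q := by
      unfold vv
      have : 1 ≤ c * (q ^ 2 + q + 1) := Nat.mul_pos hc1 (by positivity)
      omega
    rw [divsum (vv n c q) (a ^ 2) lam hv1 (fun m hm => ⟨hsq m hm, hma m hm⟩)]
    rfl
  rw [Finset.sum_congr rfl hrew]
  unfold Tm mg
  rw [alg (PB x b) (wq ω x) (Th ω x / 8) (fm i a θ f) (range (a ^ 2 + 1)) lam
    (fun q p => if p ∣ vv n c q then (1 : ℝ) else 0) (gd n c)]
  rw [← Finset.sum_product']
  refine (Finset.abs_sum_le_sum_abs _ _).trans ?_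
  set P : Finset (Finset ℕ × ℕ) := (fm i a θ f ×ˢ range (a ^ 2 + 1)).filter (fun z => lam z.2 ≠ 0) with hP
  have hPmem : ∀ z ∈ P, z.1 ∈ fm i a θ f ∧ lam z.2 ≠ 0 := by
    intro z hz
    rw [hP, mem_filter, mem_product] at hz
    exact ⟨hz.1.1, hz.2⟩
  have hb1 : ∀ z ∈ fm i a θ f ×ˢ range (a ^ 2 + 1), |(-1 : ℝ) ^ z.1.card * lam z.2 *
        (∑ q ∈ PB x b, wq ω x q * ((∏ p ∈ z.1, (if p ∣ vv n c q then (1 : ℝ) else 0)) *
          ∏ p ∈ z.2.primeFactors, (if p ∣ vv n c q then (1 : ℝ) else 0)) -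
        Th ω x / 8 * ((∏ p ∈ z.1, gd n c p) * ∏ p ∈ z.2.primeFactors, gd n c p))| ≤
      if lam z.2 ≠ 0 then B * G (∏ p ∈ z.1 ∪ z.2.primeFactors, p) else 0 := by
    intro z hz
    rw [mem_product] at hz
    by_cases h0 : lam z.2 = 0
    · rw [h0, mul_zero, zero_mul, abs_zero, if_neg (by simp)]
    · rw [if_pos h0, abs_mul, abs_mul, abs_pow, abs_neg, abs_one, one_pow, one_mul]
      exact mul_le_mul (hSW z.2).1 (hpair z.1 hz.1 z.2 h0) (abs_nonneg _) hB0
  refine (Finset.sum_le_sum hb1).trans ?_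
  rw [← Finset.sum_filter, ← hP, ← Finset.mul_sum]
  refine mul_le_mul_of_nonneg_left ?_ hB0
  have hinj : Set.InjOn (fun z : Finset ℕ × ℕ => ∏ p ∈ z.1 ∪ z.2.primeFactors, p) (P : Set (Finset ℕ × ℕ)) := by
    intro z hz z' hz' he
    obtain ⟨hz1, hz2⟩ := hPmem z (Finset.mem_coe.1 hz)
    obtain ⟨hz1', hz2'⟩ := hPmem z' (Finset.mem_coe.1 hz')
    have h1 : z.1 ∪ z.2.primeFactors = z'.1 ∪ z'.2.primeFactors := by
      rw [← Nat.primeFactors_prod (fun p hp => (hT z.1 hz1 z.2 hz2 p hp).1),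
        ← Nat.primeFactors_prod (fun p hp => (hT z'.1 hz1' z'.2 hz2' p hp).1)]
      exact congrArg Nat.primeFactors he
    have hD : ∀ u : Finset ℕ × ℕ, u.1 ∈ fm i a θ f → lam u.2 ≠ 0 → ∀ p, p ∈ u.1 ↔
        p ∈ u.1 ∪ u.2.primeFactors ∧ (p : ℝ) < (a : ℝ) ^ θ := by
      intro u hu1 hu2 p
      constructor
      · intro h
        exact ⟨mem_union_left _ h, (Qs_pr a θ p (hDQ u.1 hu1 h)).2.2.1⟩
      · rintro ⟨h, h'⟩
        rcases mem_union.1 h with h | h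
        · exact h
        · exact absurd (hmp u.2 hu2 p h) (not_le.2 h')
    have hM : ∀ u : Finset ℕ × ℕ, u.1 ∈ fm i a θ f → lam u.2 ≠ 0 → ∀ p, p ∈ u.2.primeFactors ↔
        p ∈ u.1 ∪ u.2.primeFactors ∧ (a : ℝ) ^ θ ≤ (p : ℝ) := by
      intro u hu1 hu2 p
      constructor
      · intro h
        exact ⟨mem_union_right _ h, hmp u.2 hu2 p h⟩
      · rintro ⟨h, h'⟩
        rcases mem_union.1 h with h | h
        · exact absurd ((Qs_pr a θ p (hDQ u.1 hu1 h)).2.2.1) (not_lt.2 h')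
        · exact h
    have e1 : z.1 = z'.1 := by
      ext p
      rw [hD z hz1 hz2 p, hD z' hz1' hz2' p, h1]
    have e2 : z.2.primeFactors = z'.2.primeFactors := by
      ext p
      rw [hM z hz1 hz2 p, hM z' hz1' hz2' p, h1]
    have e3 : z.2 = z'.2 := by
      rw [← Nat.prod_primeFactors_of_squarefree (hsq z.2 hz2),
        ← Nat.prod_primeFactors_of_squarefree (hsq z'.2 hz2'), e2]
    exact Prod.ext e1 e3
  have hsum : ∑ z ∈ P, G (∏ p ∈ z.1 ∪ z.2.primeFactors, p) ≤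
      ∑ d ∈ (Icc 1 ⌊x ^ (49 / 100 : ℝ)⌋₊).filter Squarefree, G d := by
    rw [← Finset.sum_image (f := G) hinj]
    refine Finset.sum_le_sum_of_subset_of_nonneg ?_ (fun d _ _ => hG0 d)
    intro d hd
    rw [mem_image] at hd
    obtain ⟨z, hz, rfl⟩ := hd
    obtain ⟨hz1, hz2⟩ := hPmem z hz
    rw [mem_filter, mem_Icc]
    refine ⟨⟨Finset.prod_pos fun p hp => (hT z.1 hz1 z.2 hz2 p hp).1.pos,
      Nat.le_floor (hdle z.1 hz1 z.2 hz2)⟩, ?_⟩
    refine Finset.squarefree_prod_of_pairwise_isCoprime (fun p hp p' hp' hne => ?_) (fun p hp => ?_)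
    · have hp1 := (hT z.1 hz1 z.2 hz2 p (Finset.mem_coe.1 hp)).1
      have hp2 := (hT z.1 hz1 z.2 hz2 p' (Finset.mem_coe.1 hp')).1
      exact Nat.coprime_iff_isRelPrime.1 ((Nat.coprime_primes hp1 hp2).2 hne)
    · exact (hT z.1 hz1 z.2 hz2 p hp).1.squarefree
  refine hsum.trans ?_
  rw [hG, Finset.sum_add_distrib, Finset.sum_const, nsmul_eq_mul]
  have hcnt : (((Icc 1 ⌊x ^ (49 / 100 : ℝ)⌋₊).filter Squarefree).card : ℝ) ≤ x ^ (49 / 100 : ℝ) := by
    have h1 := Finset.card_filter_le (Icc 1 ⌊x ^ (49 / 100 : ℝ)⌋₊) Squarefree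
    rw [Nat.card_Icc, Nat.add_sub_cancel] at h1
    calc _ ≤ ((⌊x ^ (49 / 100 : ℝ)⌋₊ : ℕ) : ℝ) := by exact_mod_cast h1
      _ ≤ _ := Nat.floor_le (by positivity)
  have h1 : x / Real.log x ^ (A + 1) ≤ 1 / 2 * (x / Real.log x ^ A) := by
    have hL0 : 0 < Real.log x := by linarith
    rw [pow_succ, div_mul_eq_div_div, div_le_iff₀ hL0]
    have h2 : 0 ≤ x / Real.log x ^ A := by positivity
    nlinarith
  have h2 : (((Icc 1 ⌊x ^ (49 / 100 : ℝ)⌋₊).filter Squarefree).card : ℝ) * PP ω x ≤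
      1 / 2 * (x / Real.log x ^ A) := by
    refine le_trans (mul_le_mul hcnt hPl hPn (by positivity)) hPPx
  linarith

end Pool.Agent.Helper73.EL
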